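import Mathlib

/-!
# The zero free disc of the Stern polynomials

No Stern polynomial `B_n`, `n ≥ 1`, has a complex zero `t` with `0 < |t| ≤ 1/4`, and the constant `1/4` is
optimal: there are negative real zeros of Stern polynomials arbitrarily close to `-1/4`.

Proof.  For a complex number `t` with `|t| ≤ 1/4` the vector `(x, y) = (B_n(t), B_{n+1}(t))`
is nonzero and satisfies `2 |x| ≤ |y|` or `2 |y| ≤ |x|`, for every `n ≥ 0`: the maps
`(x, y) ↦ (t x, x + y)` and `(x, y) ↦ (x + y, t y)` preserve this condition.  In particular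
`x + y ≠ 0`, so that no `B_n`, `n ≥ 1`, vanishes at `t` if `t ≠ 0`. For the Jacobsthal numbers
`J_k = 1, 1, 3, 5, 11, 21, ...` one has `B_{J_{k+2}} = B_{J_{k+1}} + t B_{J_k}`, so that `B_{J_k}` vanishes at
`t = -1 / (4 cos(π / k) ^ 2)`, which tends to `-1/4`.
-/

set_option autoImplicit false

namespace Pool.Agent.Results.MP_32086b_nt.ZeroFreeDisc

open Polynomial

/-- The Stern polynomials: `B_0 = 0`, `B_1 = 1`, and for `m ≥ 1`, `B_{2 m} = t B_m` and
`B_{2 m + 1} = B_m + B_{m + 1}` (see `B_even`, `B_odd`). -/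
noncomputable def B : ℕ → ℤ[X]
  | 0 => 0
  | 1 => 1
  | n + 2 => if n % 2 = 0 then X * B (n / 2 + 1) else B (n / 2 + 1) + B (n / 2 + 2)

theorem B_zero : B 0 = 0 := by rw [B]

theorem B_one : B 1 = 1 := by rw [B]

theorem B_even (m : ℕ) (hm : 1 ≤ m) : B (2 * m) = X * B m := by
  obtain ⟨k, rfl⟩ : ∃ k, m = k + 1 := ⟨m - 1, by omega⟩
  rw [show 2 * (k + 1) = 2 * k + 2 by ring, B, if_pos (by omega), show 2 * k / 2 = k by omega]

theorem B_odd (m : ℕ) (hm : 1 ≤ m) : B (2 * m + 1) = B m + B (m + 1) := by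
  obtain ⟨k, rfl⟩ : ∃ k, m = k + 1 := ⟨m - 1, by omega⟩
  rw [show 2 * (k + 1) + 1 = (2 * k + 1) + 2 by ring, B, if_neg (by omega),
    show (2 * k + 1) / 2 = k by omega]

/-- The recursions also hold for `m = 0`. -/
theorem B_even' (m : ℕ) : B (2 * m) = X * B m := by
  rcases Nat.eq_zero_or_pos m with rfl | h
  · simp [B_zero]
  · exact B_even m h

theorem B_odd' (m : ℕ) : B (2 * m + 1) = B m + B (m + 1) := by
  rcases Nat.eq_zero_or_pos m with rfl | h
  · simp [B_zero, B_one]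
  · exact B_odd m h

/-- The pair `(B_n(t), B_{n+1}(t))` for `|t| ≤ 1/4`. -/
theorem pair (t : ℂ) (ht : ‖t‖ ≤ 1 / 4) (n : ℕ) :
    (2 * ‖aeval t (B n)‖ ≤ ‖aeval t (B (n + 1))‖ ∧ aeval t (B (n + 1)) ≠ 0) ∨
    (2 * ‖aeval t (B (n + 1))‖ ≤ ‖aeval t (B n)‖ ∧ aeval t (B n) ≠ 0) := by
  induction n using Nat.strong_induction_on with
  | _ n ih =>
    rcases Nat.eq_zero_or_pos n with rfl | hn
    · left
      rw [B_zero, B_one]
      simp
    · obtain ⟨m, hm | hm⟩ := Nat.even_or_odd' n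
      · subst hm
        have h := ih m (by omega)
        rw [B_even', B_odd', map_mul, map_add, aeval_X, norm_mul]
        generalize aeval t (B m) = x at h
        generalize aeval t (B (m + 1)) = y at h
        left
        rcases h with ⟨h1, h2⟩ | ⟨h1, h2⟩
        · have h3 : ‖y‖ - ‖x‖ ≤ ‖x + y‖ := by
            have := norm_sub_norm_le y (-x)
            rw [norm_neg, sub_neg_eq_add, add_comm y x] at this
            exact this
          have h4 : 0 < ‖y‖ := norm_pos_iff.2 h2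
          have h5 : 0 ≤ ‖x‖ := norm_nonneg x
          have h6 : ‖t‖ * ‖x‖ ≤ 1 / 4 * ‖x‖ := mul_le_mul_of_nonneg_right ht h5
          refine ⟨by linarith, ?_⟩
          rw [← norm_pos_iff]
          linarith
        · have h3 : ‖x‖ - ‖y‖ ≤ ‖x + y‖ := by
            have := norm_sub_norm_le x (-y)
            rw [norm_neg, sub_neg_eq_add] at this
            exact this
          have h4 : 0 < ‖x‖ := norm_pos_iff.2 h2
          have h5 : 0 ≤ ‖y‖ := norm_nonneg y
          have h6 : ‖t‖ * ‖x‖ ≤ 1 / 4 * ‖x‖ := mul_le_mul_of_nonneg_right ht h4.le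
          refine ⟨by linarith, ?_⟩
          rw [← norm_pos_iff]
          linarith
      · subst hm
        have h := ih m (by omega)
        rw [show 2 * m + 1 + 1 = 2 * (m + 1) by ring, B_even', B_odd', map_mul, map_add, aeval_X,
          norm_mul]
        generalize aeval t (B m) = x at h
        generalize aeval t (B (m + 1)) = y at h
        right
        rcases h with ⟨h1, h2⟩ | ⟨h1, h2⟩
        · have h3 : ‖y‖ - ‖x‖ ≤ ‖x + y‖ := by
            have := norm_sub_norm_le y (-x)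
            rw [norm_neg, sub_neg_eq_add, add_comm y x] at this
            exact this
          have h4 : 0 < ‖y‖ := norm_pos_iff.2 h2
          have h5 : 0 ≤ ‖x‖ := norm_nonneg x
          have h6 : ‖t‖ * ‖y‖ ≤ 1 / 4 * ‖y‖ := mul_le_mul_of_nonneg_right ht h4.le
          refine ⟨by linarith, ?_⟩
          rw [← norm_pos_iff]
          linarith
        · have h3 : ‖x‖ - ‖y‖ ≤ ‖x + y‖ := by
            have := norm_sub_norm_le x (-y)
            rw [norm_neg, sub_neg_eq_add] at this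
            exact this
          have h4 : 0 < ‖x‖ := norm_pos_iff.2 h2
          have h5 : 0 ≤ ‖y‖ := norm_nonneg y
          have h6 : ‖t‖ * ‖y‖ ≤ 1 / 4 * ‖y‖ := mul_le_mul_of_nonneg_right ht h5
          refine ⟨by linarith, ?_⟩
          rw [← norm_pos_iff]
          linarith

/-- No `B_n`, `n ≥ 1`, vanishes at a complex number `t` with `0 < |t| ≤ 1/4`. -/
theorem ne_zero_of_small (t : ℂ) (ht0 : t ≠ 0) (ht : ‖t‖ ≤ 1 / 4) (n : ℕ) (hn : 1 ≤ n) :
    aeval t (B n) ≠ 0 := by
  induction n using Nat.strong_induction_on with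
  | _ n ih =>
    obtain ⟨m, hm | hm⟩ := Nat.even_or_odd' n
    · subst hm
      rw [B_even', map_mul, aeval_X]
      exact mul_ne_zero ht0 (ih m (by omega) (by omega))
    · subst hm
      rw [B_odd', map_add]
      intro h0
      have h1 : aeval t (B m) = - aeval t (B (m + 1)) := eq_neg_of_add_eq_zero_left h0
      have h2 : ‖aeval t (B m)‖ = ‖aeval t (B (m + 1))‖ := by rw [h1, norm_neg]
      rcases pair t ht m with ⟨h3, h4⟩ | ⟨h3, h4⟩
      · have := norm_pos_iff.2 h4
        linarith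
      · have := norm_pos_iff.2 h4
        linarith

/-- The Jacobsthal indices `q = J_{2 i + 1}` and `p = J_{2 i + 2}`: the values of the Stern polynomials at
`t = -1 / (2 cos θ) ^ 2`. -/
theorem chain (t θ : ℝ) (ht : t * (2 * Real.cos θ) ^ 2 = -1) (i : ℕ) :
    ∃ p q : ℕ, 1 ≤ p ∧ 2 * q = p + 1 ∧
      aeval t (B q) * Real.sin θ * (2 * Real.cos θ) ^ (2 * i) = Real.sin ((2 * i + 1) * θ) ∧
      aeval t (B p) * Real.sin θ * (2 * Real.cos θ) ^ (2 * i + 1) = Real.sin ((2 * i + 2) * θ) := by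
  induction i with
  | zero =>
    refine ⟨1, 1, le_rfl, rfl, ?_, ?_⟩
    · rw [B_one]
      simp
    · rw [B_one]
      simp only [map_one, one_mul, Nat.cast_zero, mul_zero, zero_add, pow_one]
      rw [Real.sin_two_mul]
      ring
  | succ i ih =>
    obtain ⟨p, q, hp, hq, h1, h2⟩ := ih
    have e1 : aeval t (B (2 * p + 1)) = aeval t (B p) + t * aeval t (B q) := by
      rw [B_odd', ← hq, B_even', map_add, map_mul, aeval_X]
    have e2 : aeval t (B (4 * p + 1)) = t * aeval t (B p) + aeval t (B (2 * p + 1)) := by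
      rw [show 4 * p + 1 = 2 * (2 * p) + 1 by ring, B_odd' (2 * p), B_even', map_add, map_mul, aeval_X]
    obtain ⟨u, hu⟩ : ∃ u, u = aeval t (B q) := ⟨_, rfl⟩
    obtain ⟨v, hv⟩ : ∃ v, v = aeval t (B p) := ⟨_, rfl⟩
    obtain ⟨w, hw⟩ : ∃ w, w = aeval t (B (2 * p + 1)) := ⟨_, rfl⟩
    rw [← hu] at h1 e1
    rw [← hv] at h2 e1 e2
    rw [← hw] at e1 e2
    have s3 : Real.sin ((2 * (i : ℝ) + 3) * θ) =
        2 * Real.cos θ * Real.sin ((2 * i + 2) * θ) - Real.sin ((2 * i + 1) * θ) := by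
      rw [show (2 * (i : ℝ) + 3) * θ = (2 * i + 2) * θ + θ by ring,
        show (2 * (i : ℝ) + 1) * θ = (2 * i + 2) * θ - θ by ring, Real.sin_add, Real.sin_sub]
      ring
    have s4 : Real.sin ((2 * (i : ℝ) + 4) * θ) =
        2 * Real.cos θ * Real.sin ((2 * i + 3) * θ) - Real.sin ((2 * i + 2) * θ) := by
      rw [show (2 * (i : ℝ) + 4) * θ = (2 * i + 3) * θ + θ by ring,
        show (2 * (i : ℝ) + 2) * θ = (2 * i + 3) * θ - θ by ring, Real.sin_add, Real.sin_sub]
      ring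
    have g1 : w * Real.sin θ * (2 * Real.cos θ) ^ (2 * i + 2) = Real.sin ((2 * i + 3) * θ) := by
      rw [s3, ← h1, ← h2, e1]
      linear_combination (u * Real.sin θ * (2 * Real.cos θ) ^ (2 * i)) * ht
    have g2 : (t * v + w) * Real.sin θ * (2 * Real.cos θ) ^ (2 * i + 3) =
        Real.sin ((2 * i + 4) * θ) := by
      rw [s4, ← g1, ← h2]
      linear_combination (v * Real.sin θ * (2 * Real.cos θ) ^ (2 * i + 1)) * ht
    refine ⟨4 * p + 1, 2 * p + 1, by omega, by ring, ?_, ?_⟩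
    · rw [← hw, show 2 * (i + 1) = 2 * i + 2 by ring, g1]
      congr 1
      push_cast
      ring
    · rw [e2, show 2 * (i + 1) + 1 = 2 * i + 3 by ring, g2]
      congr 1
      push_cast
      ring

/-- There are negative real zeros arbitrarily close to `-1/4`. -/
theorem optimal (ε : ℝ) (hε : 0 < ε) :
    ∃ n : ℕ, 1 ≤ n ∧ ∃ t : ℝ, -(1 / 4) - ε < t ∧ t < 0 ∧ aeval t (B n) = 0 := by
  have hθ : Filter.Tendsto (fun i : ℕ => Real.pi / (2 * (i : ℝ) + 2)) Filter.atTop (nhds 0) := by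
    refine Filter.Tendsto.div_atTop tendsto_const_nhds ?_
    refine Filter.tendsto_atTop_add_const_right _ _ ?_
    exact Filter.Tendsto.const_mul_atTop (by norm_num) tendsto_natCast_atTop_atTop
  have hg : Filter.Tendsto (fun x : ℝ => -1 / (2 * Real.cos x) ^ 2) (nhds 0) (nhds (-(1 / 4))) := by
    have h1 : ContinuousAt (fun x : ℝ => -1 / (2 * Real.cos x) ^ 2) 0 := by
      refine ContinuousAt.div continuousAt_const ?_ ?_
      · exact ((continuous_const.mul Real.continuous_cos).pow 2).continuousAt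
      · rw [Real.cos_zero]
        norm_num
    have h2 := h1.tendsto
    rw [Real.cos_zero] at h2
    convert h2 using 2
    norm_num
  have h3 := (hg.comp hθ).eventually (lt_mem_nhds (show -(1 / 4) - ε < -(1 / 4) by linarith))
  obtain ⟨i, h4, h5⟩ := (h3.and (Filter.eventually_ge_atTop 1)).exists
  obtain ⟨θ, hθd⟩ : ∃ θ, θ = Real.pi / (2 * (i : ℝ) + 2) := ⟨_, rfl⟩
  have hi : (1 : ℝ) ≤ i := by exact_mod_cast h5
  have hpi := Real.pi_pos
  have h6 : 0 < θ := by rw [hθd]; positivity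
  have h7 : θ ≤ Real.pi / 4 := by
    rw [hθd]
    exact div_le_div_of_nonneg_left hpi.le (by norm_num) (by linarith)
  have hc : 0 < Real.cos θ := Real.cos_pos_of_mem_Ioo ⟨by linarith, by linarith⟩
  have hs : 0 < Real.sin θ := Real.sin_pos_of_pos_of_lt_pi h6 (by linarith)
  have hc2 : (2 * Real.cos θ) ^ 2 ≠ 0 := by positivity
  obtain ⟨p, q, hp, -, -, h8⟩ := chain (-1 / (2 * Real.cos θ) ^ 2) θ (by field_simp) i
  refine ⟨p, hp, -1 / (2 * Real.cos θ) ^ 2, ?_, ?_, ?_⟩
  · have h9 : -(1 / 4) - ε < -1 / (2 * Real.cos (Real.pi / (2 * (i : ℝ) + 2))) ^ 2 := h4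
    rw [← hθd] at h9
    exact h9
  · exact div_neg_of_neg_of_pos (by norm_num) (by positivity)
  · have h10 : (2 * (i : ℝ) + 2) * θ = Real.pi := by
      rw [hθd]
      field_simp
    rw [h10, Real.sin_pi] at h8
    have h11 : (2 * Real.cos θ) ^ (2 * i + 1) ≠ 0 := by positivity
    rcases mul_eq_zero.1 h8 with h12 | h12
    · rcases mul_eq_zero.1 h12 with h13 | h13
      · exact h13
      · exact absurd h13 hs.ne'
    · exact absurd h12 h11

/-- No Stern polynomial `B_n`, `n ≥ 1`, has a complex zero `t` with `0 < |t| ≤ 1/4`, and there are negative real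
zeros of Stern polynomials arbitrarily close to `-1/4`. -/
theorem result :
    (∀ n : ℕ, 1 ≤ n → ∀ t : ℂ, aeval t (B n) = 0 → t = 0 ∨ 1 / 4 < ‖t‖) ∧
    ∀ ε : ℝ, 0 < ε → ∃ n : ℕ, 1 ≤ n ∧ ∃ t : ℝ, -(1 / 4) - ε < t ∧ t < 0 ∧ aeval t (B n) = 0 := by
  refine ⟨fun n hn t h => ?_, optimal⟩
  by_contra hcon
  push Not at hcon
  exact ne_zero_of_small t hcon.1 hcon.2 n hn h

end Pool.Agent.Results.MP_32086b_nt.ZeroFreeDisc
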